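import Pool.Agent.H89QS.Mal
import Pool.Agent.H89QS.Tr
import Pool.Agent.H89QS.Cay

/-!
# An acylindrical action of a hyperbolic group dominated by no quasi-convex splitting (MP_172f05_al)

All trees are simple graphs `T` which are trees (`SimpleGraph.IsTree`), distances in a graph are
the usual ones (`SimpleGraph.dist`).
-/

set_option autoImplicit false

namespace Pool.Agent.Results.MP_172f05_al.NotDominated

/-- The Cayley graph of the group `G` for the set `S`: `g` and `h` are adjacent when they are
different and `g⁻¹ h` or `h⁻¹ g` is in `S`. -/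
def cayley {G : Type} [Group G] (S : Set G) : SimpleGraph G :=
  SimpleGraph.fromRel (fun g h => g⁻¹ * h ∈ S)

/-- The group `G` is Gromov hyperbolic: it has a finite generating set whose Cayley graph satisfies
Gromov's four point condition. -/
def IsHyperbolicGroup (G : Type) [Group G] : Prop :=
  ∃ S : Set G, S.Finite ∧ Subgroup.closure S = ⊤ ∧ ∃ δ : ℕ, ∀ x y z w : G,
    (cayley S).dist x y + (cayley S).dist z w ≤
      max ((cayley S).dist x z + (cayley S).dist y w)
        ((cayley S).dist x w + (cayley S).dist y z) + δ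

/-- The subgroup `H` is quasi-convex in `G`: for some finite generating set `S` of `G` and some
`R`, each vertex `z` of each geodesic of the Cayley graph between two points `x`, `y` of `H` is at
distance at most `R` from `H`. -/
def IsQuasiConvex {G : Type} [Group G] (H : Subgroup G) : Prop :=
  ∃ S : Set G, S.Finite ∧ Subgroup.closure S = ⊤ ∧ ∃ R : ℕ, ∀ x ∈ H, ∀ y ∈ H, ∀ z : G,
    (cayley S).dist x z + (cayley S).dist z y = (cayley S).dist x y →
      ∃ h ∈ H, (cayley S).dist z h ≤ R

/-- `G` acts on the tree `T` by graph automorphisms without inversions. -/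
structure TreeAction (G : Type) [Group G] {V : Type} [MulAction G V] (T : SimpleGraph V) :
    Prop where
  isTree : T.IsTree
  adj : ∀ (g : G) (v w : V), T.Adj v w → T.Adj (g • v) (g • w)
  noInversion : ∀ (g : G) (v w : V), T.Adj v w → ¬ (g • v = w ∧ g • w = v)

/-- The action is acylindrical: for some `k` and `C`, at most `C` elements fix all vertices of a
given (embedded) edge path of length at least `k`. -/
def Acylindrical (G : Type) [Group G] {V : Type} [MulAction G V] (T : SimpleGraph V) : Prop :=
  ∃ k C : ℕ, ∀ (v w : V) (p : T.Walk v w), p.IsPath → k ≤ p.length →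
    {g : G | ∀ u ∈ p.support, g • u = u}.encard ≤ C

/-- The injective biinfinite edge path `L` is the axis of `g`: the element `g` acts on it as a
nontrivial translation. -/
structure IsAxis {G : Type} [Group G] {V : Type} [MulAction G V] (T : SimpleGraph V) (g : G)
    (L : ℤ → V) : Prop where
  adj : ∀ i, T.Adj (L i) (L (i + 1))
  inj : Function.Injective L
  transl : ∃ l : ℤ, 0 < l ∧ ∀ i, g • L i = L (i + l)

/-- The action is non-elementary: there are two hyperbolic elements whose axes have no common end,
i.e. have only finitely many vertices in common. -/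
def NonElementary (G : Type) [Group G] {V : Type} [MulAction G V] (T : SimpleGraph V) : Prop :=
  ∃ (g h : G) (L M : ℤ → V), IsAxis T g L ∧ IsAxis T h M ∧ (Set.range L ∩ Set.range M).Finite

/-- A quasi-convex splitting of `G`: an action on a tree with quasi-convex edge stabilisers. -/
def QuasiConvexSplitting (G : Type) [Group G] {V : Type} [MulAction G V] (T : SimpleGraph V) :
    Prop :=
  TreeAction G T ∧ ∀ v w : V, T.Adj v w →
    IsQuasiConvex (MulAction.stabilizer G v ⊓ MulAction.stabilizer G w)

open Pool.Agent.H89QS Pool.Agent.H89QS.Tr Pool.Agent.Helper705_SA Pool.Agent.Helper270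
  Pool.Agent.Helper270.Tree

theorem adm : Adm 201 40 := ⟨by norm_num, by norm_num, by norm_num, by norm_num⟩

theorem ga_ne : ga adm ≠ 1 := by
  have := ga_pow_ne adm (k := 1) one_pos
  rwa [pow_one] at this

theorem mal : Mal (AA adm) := fun _ _ hg hx hx1 hy => malnormal adm hg hx hx1 hy

theorem gt_not_BB : gt adm ∉ BB adm := by
  intro hc
  have h1 : gt adm ∈ KK adm := by
    rw [← inf_eq]
    exact ⟨gt_AA adm, hc⟩
  have := gt_zpow_KK adm (m := 1) (by rwa [zpow_one])
  omega

theorem KK_infinite : (KK adm : Set (GG adm)).Infinite := by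
  have hinj : Function.Injective (fun k : ℕ => ga adm ^ k) := by
    have key : ∀ a b : ℕ, a < b → ga adm ^ a ≠ ga adm ^ b := by
      intro a b hab h
      apply ga_pow_ne adm (k := b - a) (by omega)
      have e : ga adm ^ b = ga adm ^ a * ga adm ^ (b - a) := by
        rw [← pow_add]; congr 1; omega
      rw [e] at h
      exact (mul_eq_left.1 h.symm)
    intro a b h
    rcases lt_trichotomy a b with h1 | h1 | h1
    · exact absurd h (key a b h1)
    · exact h1
    · exact absurd h.symm (key b a h1)
  refine (Set.infinite_range_of_injective hinj).mono ?_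
  rintro _ ⟨k, rfl⟩
  exact (KK adm).pow_mem (ga_KK adm) k

theorem KK_not_qc : ¬ IsQuasiConvex (KK adm) := by
  rintro ⟨S, hfin, hgen, R, hR⟩
  obtain ⟨R', hR'⟩ := qc_change (HG adm) hfin hgen (KK adm) R hR
  exact not_hqc (HG adm) (KK adm) KK_infinite (gt adm) (fun k hk m => KK_zpow adm m k hk)
    (fun m hm => gt_zpow_KK adm hm) R' hR'

theorem BB_fixed {V : Type} [MulAction (GG adm) V] {T : SimpleGraph V}
    (hT : TreeAct (GG adm) T) : ∃ w : V, ∀ b ∈ BB adm, b • w = w := by
  have hell : ∀ g : GG adm, IsOfFinOrder g → ∃ v : V, g • v = v := by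
    intro g hg
    by_contra hcon
    push Not at hcon
    exact hyperbolic_not_isOfFinOrder hT hcon hg
  obtain ⟨w, hw⟩ := helly hT.isTree (fun u : Fin 4 => FixSet V {gx adm u * gc adm})
    (fun u => fixSet_conv hT _) (by
      intro u v
      obtain ⟨x, hx1, hx2⟩ := hT.common_fixed {gx adm u * gc adm} (gx adm v * gc adm)
        (by
          obtain ⟨y, hy⟩ := hell _ (tors1 adm u)
          exact ⟨y, by rintro _ rfl; exact hy⟩)
        (hell _ (tors1 adm v))
        (by rintro _ rfl; exact hell _ (tors adm u v))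
      exact ⟨x, hx1, by rintro _ rfl; exact hx2⟩)
  refine ⟨w, fun b hb => ?_⟩
  exact BB_le adm (L := MulAction.stabilizer (GG adm) w) (fun u => hw u _ rfl) hb

/-- There is a hyperbolic group `G` with a non-elementary acylindrical action on a tree `T`, such
that no quasi-convex splitting `T'` of `G` has a `G`-equivariant map (of vertices) from `T'` to
`T`. -/
theorem result : ∃ (G : Type) (_ : Group G) (V : Type) (_ : MulAction G V) (T : SimpleGraph V),
    IsHyperbolicGroup G ∧ TreeAction G T ∧ Acylindrical G T ∧ NonElementary G T ∧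
    ∀ (V' : Type) (_ : MulAction G V') (T' : SimpleGraph V'), QuasiConvexSplitting G T' →
      ¬ ∃ f : V' → V, ∀ (g : G) (v : V'), f (g • v) = g • f v := by
  have hAm := isAmalgam adm
  have hT := treeAct (AA adm) (BB adm) hAm
  have hgaB : ga adm ∈ BB adm := KK_le_BB adm (ga_KK adm)
  refine ⟨GG adm, inferInstance, (GG adm ⧸ AA adm) ⊕ (GG adm ⧸ BB adm), inferInstance,
    cosetGraph (AA adm) (BB adm), ?_, ⟨hT.isTree, hT.adj, hT.noInv⟩, ?_, ?_, ?_⟩
  · exact ⟨sph (HG adm), sph_fin _, sph_gen _, (HG adm).D, cay_four (HG adm)⟩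
  · refine ⟨3, 1, ?_⟩
    intro v w p hp hl
    rw [Nat.cast_one, Set.encard_le_one_iff]
    intro a b ha hb
    rw [acyl mal p hp hl a ha, acyl mal p hp hl b hb]
  · have hL := ax_line (gt_AA adm) gt_not_BB (gc_BB adm) (gc_not_AA adm)
    refine ⟨gt adm * gc adm, ga adm * (gt adm * gc adm) * (ga adm)⁻¹,
      ax (AA adm) (BB adm) (gt adm * gc adm),
      fun i => ga adm • ax (AA adm) (BB adm) (gt adm * gc adm) i,
      ⟨hL.adj, hL.injective hT.isTree, 2, by norm_num, ax_smul _⟩, ⟨?_, ?_, 2, by norm_num, ?_⟩,
      ?_⟩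
    · intro i
      exact hT.adj _ _ _ (hL.adj i)
    · intro i j hij
      exact hL.injective hT.isTree (MulAction.injective _ hij)
    · intro i
      rw [← ax_smul, ← mul_smul, ← mul_smul, inv_mul_cancel_right]
    · refine ((Set.finite_Ioo (-3 : ℤ) 4).image
        (ax (AA adm) (BB adm) (gt adm * gc adm))).subset ?_
      rintro _ ⟨⟨i, rfl⟩, ⟨j, hj⟩⟩
      refine ⟨i, ?_, rfl⟩
      exact ax_inter hAm mal (gt_AA adm) gt_not_BB (gc_BB adm) (gc_not_AA adm) (ga_AA adm) hgaB
        ga_ne hj.symm
  · rintro V' _ T' ⟨hT', hqc⟩ ⟨f, hf⟩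
    have hT'' : TreeAct (GG adm) T' := ⟨hT'.isTree, hT'.adj, hT'.noInversion⟩
    obtain ⟨w, hw⟩ := BB_fixed hT''
    have hfw : f w = vB (AA adm) (BB adm) 1 :=
      fix_B hAm mal (ga_AA adm) hgaB ga_ne (gc_BB adm) (gc_not_AA adm)
        (fun b hb => by rw [← hf, hw b hb])
    obtain ⟨p, q, hpq, hst⟩ := exists_edge hAm (inf_eq adm) (gt_AA adm) gt_not_BB
      (fun k hk => KK_conj' adm hk) hT'' f hf w hw hfw
    apply KK_not_qc
    rw [← hst]
    exact hqc p q hpq

end Pool.Agent.Results.MP_172f05_al.NotDominated
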